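import Mathlib

namespace Pool.Agent.Results.MP_9fbb3c_co.Counter
open Finset

/-- B is the list of the v blocks of a symmetric BIBD on the points Fin v with block size k. -/
def SymmBIBD (v k : ℕ) (B : Fin v → Finset (Fin v)) : Prop :=
  2 ≤ k ∧ k < v ∧ (∀ i, (B i).card = k) ∧
    ∃ lam : ℕ, 0 < lam ∧ ∀ x y : Fin v, x ≠ y →
      (univ.filter (fun i => x ∈ B i ∧ y ∈ B i)).card = lam

/-- f is a 0-ULSE l-colouring of the blocks B of size k. -/
def ULSE (v k l : ℕ) (B : Fin v → Finset (Fin v)) (f : Fin v → Fin l) : Prop :=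
  Function.Surjective f ∧ (l - 1) ∣ k ∧
    ∀ i, ∃ c, (∀ x ∈ B i, f x ≠ c) ∧
      ∀ c', c' ≠ c → ((B i).filter (fun x => f x = c')).card = k / (l - 1)

def B16 (i : Fin 16) : Finset (Fin 16) :=
  univ.filter (fun x => (x.val / 4 = i.val / 4 ↔ x.val % 4 = i.val % 4))

lemma design : SymmBIBD 16 10 B16 := by
  refine ⟨by norm_num, by norm_num, by decide +kernel, 6, by norm_num, by decide +kernel⟩

lemma count (B : Fin 16 → Finset (Fin 16)) (lam : ℕ) (x : Fin 16)
    (h : ∀ x y : Fin 16, x ≠ y → (univ.filter (fun i => x ∈ B i ∧ y ∈ B i)).card = lam)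
    (S : Finset (Fin 16)) (hx : x ∉ S) (m : ℕ)
    (hm : ∀ i, x ∈ B i → (S.filter (fun y => y ∈ B i)).card = m) :
    (univ.filter (fun i => x ∈ B i)).card * m = S.card * lam := by
  have e1 : ∑ i ∈ univ.filter (fun i => x ∈ B i), (S.filter (fun y => y ∈ B i)).card
      = (univ.filter (fun i => x ∈ B i)).card * m := by
    rw [← smul_eq_mul, ← sum_const]
    exact sum_congr rfl (fun i hi => hm i (mem_filter.mp hi).2)
  have e2 : ∑ y ∈ S, ((univ.filter (fun i => x ∈ B i)).filter (fun i => y ∈ B i)).card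
      = S.card * lam := by
    rw [← smul_eq_mul, ← sum_const]
    refine sum_congr rfl (fun y hy => ?_)
    rw [filter_filter]
    exact h x y (fun e => hx (e ▸ hy))
  rw [← e1, ← e2]
  simp only [card_filter]
  exact sum_comm

lemma none (B : Fin 16 → Finset (Fin 16)) (f : Fin 16 → Fin 6) (hB : SymmBIBD 16 10 B) :
    ¬ ULSE 16 10 6 B f := by
  rintro ⟨-, -, hU⟩
  obtain ⟨-, -, hk, lam, hl, h⟩ := hB
  have a1 := count B lam 0 h (univ.erase 0) (by simp) 9 (fun i hi => by
    have : (univ.erase (0 : Fin 16)).filter (fun y => y ∈ B i) = (B i).erase 0 := by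
      ext y; simp
    rw [this, card_erase_of_mem hi, hk])
  have a2 := count B lam 0 h ((univ.filter (fun y => f y = f 0)).erase 0) (by simp) 1
    (fun i hi => by
      obtain ⟨c, hc1, hc2⟩ := hU i
      have h2 := hc2 (f 0) (hc1 0 hi)
      have : ((univ.filter (fun y => f y = f 0)).erase (0 : Fin 16)).filter (fun y => y ∈ B i)
          = ((B i).filter (fun y => f y = f 0)).erase 0 := by
        ext y; simp; tauto
      rw [this, card_erase_of_mem (by simp [hi]), h2])
  have a3 : (univ.erase (0 : Fin 16)).card = 15 := by simp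
  rw [mul_one] at a2
  rw [a3, a2] at a1
  generalize ((univ.filter (fun y => f y = f 0)).erase (0 : Fin 16)).card = s at a1
  have : s * 9 = 15 := by
    apply Nat.eq_of_mul_eq_mul_right hl
    linarith
  omega

theorem result : ¬ ∀ v k l : ℕ, 0 < v → 0 < k → 0 < l → (k : ℤ) ≠ ((l : ℤ) - 1) ^ 2 →
    (v : ℚ) = l * ((l : ℚ) - 2) * k / (((l : ℚ) - 1) ^ 2 - k) → (l - 1) ∣ k →
    (∃ B, SymmBIBD v k B) → ∃ B f, SymmBIBD v k B ∧ ULSE v k l B f := by
  intro h
  obtain ⟨B, f, h1, h2⟩ := h 16 10 6 (by norm_num) (by norm_num) (by norm_num) (by norm_num)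
    (by norm_num) (by norm_num) ⟨B16, design⟩
  exact none B f h1 h2

end Pool.Agent.Results.MP_9fbb3c_co.Counter
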